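import Pool.Agent.H18.SQ.Core

/-!
# A projective semilinear representation whose class is killed by an odd number
-/

set_option autoImplicit false

open Matrix

namespace Pool.Agent.H18.SQ

variable {G K : Type} [Group G] [Field K] {s : G → K →+* K} {N : Subgroup G} {ρ B : G → Matrix (Fin 2) (Fin 2) K}
  {a : G → G → K}

/-- if an odd power of the class splits, then `ρ` extends to a semilinear representation of `G` -/
theorem exists_ext (d : Dat s N ρ B a) (hBu : ∀ x, (B x).det ≠ 0) (hB : ∀ g ∈ N, ∃ b : K, B g = b • ρ g) (cy : G → K)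
    (cy_mul : ∀ x y, cy (x * y) = cy x * cy y) (cy_ne : ∀ x, cy x ≠ 0) (cy_fix : ∀ x y, s x (cy y) = cy y)
    (hcy : ∀ g ∈ N, (ρ g).det = cy g) {m : ℕ} (hm : Odd m) (δ : G → K)
    (hδ : ∀ x y, δ x * s x (δ y) = a x y ^ m * δ (x * y)) (hδ2 : ∀ g ∈ N, ∀ b : K, B g = b • ρ g → δ g = b ^ m) :
    ∃ R : G → Matrix (Fin 2) (Fin 2) K, (∀ x y, R (x * y) = R x * (R y).map (s x)) ∧ ∀ g ∈ N, R g = ρ g := by
  obtain ⟨k, rfl⟩ := hm
  have hdet : ∀ x y, (B x).det * s x (B y).det = a x y ^ 2 * (B (x * y)).det := by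
    intro x y
    have h1 := congrArg Matrix.det (d.B_mul x y)
    rw [Matrix.det_mul, Matrix.det_smul, Fintype.card_fin] at h1
    rw [← h1]
    congr 1
    exact RingHom.map_det (s x) (B y)
  have ha0 : ∀ x y, a x y ≠ 0 := by
    intro x y h0
    have h1 := hdet x y
    rw [h0, zero_pow two_ne_zero, zero_mul] at h1
    rcases mul_eq_zero.1 h1 with h2 | h2
    · exact hBu x h2
    · exact hBu y ((map_eq_zero_iff _ (s x).injective).1 h2)
  have hb0 : ∀ g ∈ N, ∀ b : K, B g = b • ρ g → b ≠ 0 := by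
    rintro g - b hb rfl
    rw [zero_smul] at hb
    refine hBu g ?_
    rw [hb, Matrix.det_zero]
  have hδ1 : δ 1 ≠ 0 := by
    obtain ⟨b, hb⟩ := hB 1 N.one_mem
    rw [hδ2 1 N.one_mem b hb]
    exact pow_ne_zero _ (hb0 1 N.one_mem b hb)
  have hδ0 : ∀ x, δ x ≠ 0 := by
    intro x h0
    have h1 := hδ x x⁻¹
    rw [h0, zero_mul, mul_inv_cancel] at h1
    exact (mul_ne_zero (pow_ne_zero _ (ha0 _ _)) hδ1) h1.symm
  let e : G → K := fun x => (B x).det ^ k * (δ x)⁻¹ * (cy x ^ k)⁻¹
  refine ⟨fun x => e x • B x, fun x y => ?_, fun g hg => ?_⟩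
  · have h1 : (e y • B y).map (s x) = s x (e y) • (B y).map (s x) := by
      ext i j
      simp only [Matrix.map_apply, Matrix.smul_apply, smul_eq_mul, map_mul]
    have h3 : s x (e y) = s x (B y).det ^ k * (s x (δ y))⁻¹ * (cy y ^ k)⁻¹ := by
      simp only [e, map_mul, map_pow, map_inv₀, cy_fix]
    have h4 : e x * s x (e y) * a x y = e (x * y) := by
      rw [h3]
      simp only [e]
      have h5 : ((B x).det * s x (B y).det) ^ k = (a x y ^ 2 * (B (x * y)).det) ^ k := by rw [hdet]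
      rw [cy_mul x y]
      have h7 : (δ x)⁻¹ * (s x (δ y))⁻¹ = (a x y ^ (2 * k + 1) * δ (x * y))⁻¹ := by
        rw [← mul_inv, hδ]
      calc (B x).det ^ k * (δ x)⁻¹ * (cy x ^ k)⁻¹ *
            (s x (B y).det ^ k * (s x (δ y))⁻¹ * (cy y ^ k)⁻¹) * a x y
          = ((B x).det * s x (B y).det) ^ k * ((δ x)⁻¹ * (s x (δ y))⁻¹) *
            ((cy x * cy y) ^ k)⁻¹ * a x y := by
            rw [mul_pow, mul_pow, mul_inv]; ring
        _ = (B (x * y)).det ^ k * (δ (x * y))⁻¹ * ((cy x * cy y) ^ k)⁻¹ := by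
            rw [h5, h7]
            have h8 := ha0 x y
            have h9 := hδ0 (x * y)
            have h10 := cy_ne x
            have h11 := cy_ne y
            field_simp
            ring
    show e (x * y) • B (x * y) = e x • B x * (e y • B y).map (s x)
    rw [h1, Matrix.smul_mul, Matrix.mul_smul, d.B_mul x y, smul_smul, smul_smul, h4]
  · obtain ⟨b, hb⟩ := hB g hg
    show e g • B g = ρ g
    have hb1 := hb0 g hg b hb
    have h1 := hcy g hg
    have h2 : (B g).det = b ^ 2 * cy g := by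
      rw [hb, Matrix.det_smul, Fintype.card_fin, h1]
    have h3 := cy_ne g
    have h4 : e g = b⁻¹ := by
      show (B g).det ^ k * (δ g)⁻¹ * (cy g ^ k)⁻¹ = b⁻¹
      rw [h2, hδ2 g hg b hb]
      field_simp
      ring
    rw [h4, hb, smul_smul, inv_mul_cancel₀ hb1, one_smul]

/-- a matrix of square one and determinant `-1` fixes a line of functionals -/
theorem exists_line (h2 : (2 : K) ≠ 0) (M : Matrix (Fin 2) (Fin 2) K) (hM : M * M = 1) (hd : M.det = -1) :
    ∃ f : Fin 2 → K, f ≠ 0 ∧ Matrix.vecMul f M = f ∧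
      ∀ f' : Fin 2 → K, Matrix.vecMul f' M = f' → ∃ c : K, f' = c • f := by
  have e00 := congrFun (congrFun hM 0) 0
  have e01 := congrFun (congrFun hM 0) 1
  have e10 := congrFun (congrFun hM 1) 0
  have e11 := congrFun (congrFun hM 1) 1
  simp only [Matrix.mul_apply, Fin.sum_univ_two, Matrix.one_apply_eq] at e00 e01 e10 e11
  rw [Matrix.one_apply_ne (by decide)] at e01 e10
  rw [Matrix.det_fin_two] at hd
  -- the trace is zero
  have ht : M 0 0 + M 1 1 = 0 := by
    by_contra h0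
    have h3 : M 0 1 = 0 := by
      have : M 0 1 * (M 0 0 + M 1 1) = 0 := by linear_combination e01
      exact (mul_eq_zero.1 this).resolve_right h0
    have h4 : M 1 0 = 0 := by
      have : M 1 0 * (M 0 0 + M 1 1) = 0 := by linear_combination e10
      exact (mul_eq_zero.1 this).resolve_right h0
    rw [h3] at e00 hd
    have h5 : (M 0 0 + M 1 1) * (M 0 0 + M 1 1) = 0 := by
      rw [h4] at e11
      linear_combination e00 + e11 + 2 * hd
    exact h0 (mul_self_eq_zero.1 h5)
  have hns : ¬ (M 0 0 = 1 ∧ M 0 1 = 0 ∧ M 1 0 = 0 ∧ M 1 1 = 1) := by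
    rintro ⟨h3, -, -, h4⟩
    rw [h3, h4] at ht
    apply h2
    rw [← ht]
    norm_num
  obtain ⟨f, hf0, hf⟩ : ∃ f : Fin 2 → K, f ≠ 0 ∧ Matrix.vecMul f M = f := by
    have h1 : (M - 1).det = 0 := by
      rw [Matrix.det_fin_two]
      simp only [Matrix.sub_apply, Matrix.one_apply_eq]
      rw [Matrix.one_apply_ne (by decide), Matrix.one_apply_ne (by decide)]
      linear_combination hd - ht
    obtain ⟨f, hf0, hf⟩ := Matrix.exists_vecMul_eq_zero_iff.2 h1
    refine ⟨f, hf0, ?_⟩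
    rw [Matrix.vecMul_sub, Matrix.vecMul_one, sub_eq_zero] at hf
    exact hf
  refine ⟨f, hf0, hf, fun f' hf' => ?_⟩
  have a0 := congrFun hf 0
  have a1 := congrFun hf 1
  have b0 := congrFun hf' 0
  have b1 := congrFun hf' 1
  simp only [Matrix.vecMul, dotProduct, Fin.sum_univ_two] at a0 a1 b0 b1
  have hD : f 0 * f' 1 - f 1 * f' 0 = 0 := by
    by_contra h0
    apply hns
    have g1 : (M 0 0 - 1) * (f 0 * f' 1 - f 1 * f' 0) = 0 := by linear_combination f' 1 * a0 - f 1 * b0
    have g2 : M 0 1 * (f 0 * f' 1 - f 1 * f' 0) = 0 := by linear_combination f' 1 * a1 - f 1 * b1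
    have g3 : M 1 0 * (f 0 * f' 1 - f 1 * f' 0) = 0 := by linear_combination f 0 * b0 - f' 0 * a0
    have g4 : (M 1 1 - 1) * (f 0 * f' 1 - f 1 * f' 0) = 0 := by linear_combination f 0 * b1 - f' 0 * a1
    exact ⟨sub_eq_zero.1 ((mul_eq_zero.1 g1).resolve_right h0), (mul_eq_zero.1 g2).resolve_right h0,
      (mul_eq_zero.1 g3).resolve_right h0, sub_eq_zero.1 ((mul_eq_zero.1 g4).resolve_right h0)⟩
  by_cases h0 : f 0 = 0
  · have h1 : f 1 ≠ 0 := by
      intro h1
      apply hf0
      funext i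
      fin_cases i
      · exact h0
      · exact h1
    refine ⟨f' 1 / f 1, ?_⟩
    have h3 : f' 0 = 0 := by
      rw [h0, zero_mul, zero_sub, neg_eq_zero] at hD
      exact (mul_eq_zero.1 hD).resolve_left h1
    funext i
    fin_cases i
    · simp [h0, h3]
    · simp [h1]
  · refine ⟨f' 0 / f 0, ?_⟩
    funext i
    fin_cases i
    · simp [h0]
    · simp only [Pi.smul_apply, smul_eq_mul]
      show f' 1 = f' 0 / f 0 * f 1
      field_simp
      linear_combination hD

end Pool.Agent.H18.SQ
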