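import Mathlib

/-!
# Lines of functionals and the class of a projective semilinear representation

`B x`, `x` in a group `G`, are invertible matrices with `B x * σ_x(B y) = a x y • B (x y)`, which intertwine a representation
`ρ` of a normal subgroup `N` with its conjugates. If `G` acts on a set `Ω` of places and every place `P` has a subgroup of
`N` the fixed functionals of which form a line, the scalars `c(x, P)` with which `B x` acts on these lines, multiplied
over the `N`-orbits of places, split the power of the class `a` whose exponent is the number of the orbits.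
-/

set_option autoImplicit false

open Matrix

namespace Pool.Agent.H18.SQ

variable {G K : Type} [Group G] [Field K]

/-- a projective semilinear representation of `G` on `K²` over a representation `ρ` of the normal subgroup `N` -/
structure Dat (s : G → K →+* K) (N : Subgroup G) (ρ B : G → Matrix (Fin 2) (Fin 2) K) (a : G → G → K) : Prop where
  s_mul : ∀ x y z, s (x * y) z = s x (s y z)
  nrm : ∀ g ∈ N, ∀ x, x * g * x⁻¹ ∈ N
  s_N : ∀ g ∈ N, ∀ z, s g z = z
  one : ρ 1 = 1
  mul : ∀ g ∈ N, ∀ h ∈ N, ρ (g * h) = ρ g * ρ h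
  B_mul : ∀ x y, B x * (B y).map (s x) = a x y • B (x * y)
  B_int : ∀ x, ∀ g ∈ N, B x * (ρ g).map (s x) = ρ (x * g * x⁻¹) * B x

variable {s : G → K →+* K} {N : Subgroup G} {ρ B : G → Matrix (Fin 2) (Fin 2) K} {a : G → G → K}

/-- the functional `f` with the values `σ(f)` -/
private def sv (σ : K →+* K) (f : Fin 2 → K) : Fin 2 → K := fun i => σ (f i)

private theorem sv_vecMul (σ : K →+* K) (f : Fin 2 → K) (M : Matrix (Fin 2) (Fin 2) K) :
    Matrix.vecMul (sv σ f) (M.map σ) = sv σ (Matrix.vecMul f M) := by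
  funext i
  exact (RingHom.map_vecMul σ M f i).symm

private theorem sv_smul (σ : K →+* K) (c : K) (f : Fin 2 → K) : sv σ (c • f) = σ c • sv σ f := by
  funext i
  simp only [sv, Pi.smul_apply, smul_eq_mul, map_mul]

private theorem sv_inj (σ : K →+* K) {f f' : Fin 2 → K} (h : sv σ f = sv σ f') : f = f' := by
  funext i
  exact σ.injective (congrFun h i)

private theorem sv_ne (σ : K →+* K) {f : Fin 2 → K} (h : f ≠ 0) : sv σ f ≠ 0 := by
  intro h0
  apply h
  apply sv_inj σ
  rw [h0]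
  funext i
  simp [sv]

private theorem smul_inj {f : Fin 2 → K} (hf : f ≠ 0) {c c' : K} (h : c • f = c' • f) : c = c' := by
  have h1 : (c - c') • f = 0 := by rw [sub_smul, h, sub_self]
  exact sub_eq_zero.1 ((smul_eq_zero.1 h1).resolve_right hf)

/-- the splitting of a power of the class -/
theorem exists_delta (d : Dat s N ρ B a) {Ω S : Type} [Fintype S] (act : G → Ω → Ω)
    (act_mul : ∀ x y P, act (x * y) P = act x (act y P)) (act_one : ∀ P, act 1 P = P) (pr : Ω → S)
    (hpr : Function.Surjective pr) (hpr1 : ∀ P P', pr P = pr P' ↔ ∃ g ∈ N, act g P = P') (D : Ω → Set G)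
    (D_sub : ∀ P, ∀ g ∈ D P, g ∈ N) (D_act : ∀ x P, ∀ g ∈ D P, x * g * x⁻¹ ∈ D (act x P))
    (line : ∀ P, ∃ f : Fin 2 → K, f ≠ 0 ∧ (∀ g ∈ D P, Matrix.vecMul f (ρ g) = f) ∧
      ∀ f' : Fin 2 → K, (∀ g ∈ D P, Matrix.vecMul f' (ρ g) = f') → ∃ c : K, f' = c • f)
    (stab : ∀ P, ∀ g ∈ N, act g P = P → ∀ f : Fin 2 → K, (∀ h ∈ D P, Matrix.vecMul f (ρ h) = f) →
      Matrix.vecMul f (ρ g) = f) :
    ∃ δ : G → K, (∀ x y, δ x * s x (δ y) = a x y ^ Fintype.card S * δ (x * y)) ∧
      ∀ g ∈ N, ∀ b : K, B g = b • ρ g → δ g = b ^ Fintype.card S := by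
  classical
  have s_one : ∀ z, s 1 z = z := fun z => d.s_N 1 N.one_mem z
  -- an equivariant family of functionals
  choose P0 hP0 using hpr
  choose f0 hf0 hf0D hf0l using line
  have hg : ∀ P, ∃ g ∈ N, act g (P0 (pr P)) = P := fun P => (hpr1 _ _).1 (hP0 (pr P))
  choose γ hγN hγ using hg
  have hinv : ∀ g ∈ N, ρ g * ρ g⁻¹ = 1 := fun g hg => by
    rw [← d.mul g hg g⁻¹ (N.inv_mem hg), mul_inv_cancel, d.one]
  have hinv' : ∀ g ∈ N, ρ g⁻¹ * ρ g = 1 := fun g hg => by
    rw [← d.mul g⁻¹ (N.inv_mem hg) g hg, inv_mul_cancel, d.one]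
  have hγi : ∀ P, act (γ P)⁻¹ P = P0 (pr P) := by
    intro P
    have h1 := congrArg (act (γ P)⁻¹) (hγ P)
    rw [← act_mul, inv_mul_cancel, act_one] at h1
    exact h1.symm
  let f : Ω → Fin 2 → K := fun P => Matrix.vecMul (f0 (P0 (pr P))) (ρ (γ P)⁻¹)
  have hf : ∀ P, f P ≠ 0 := by
    intro P h0
    apply hf0 (P0 (pr P))
    have h1 : Matrix.vecMul (f P) (ρ (γ P)) = f0 (P0 (pr P)) := by
      show Matrix.vecMul (Matrix.vecMul (f0 (P0 (pr P))) (ρ (γ P)⁻¹)) (ρ (γ P)) = _
      rw [Matrix.vecMul_vecMul, hinv' _ (hγN P), Matrix.vecMul_one]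
    rw [← h1, h0, Matrix.zero_vecMul]
  have hfD : ∀ P, ∀ g ∈ D P, Matrix.vecMul (f P) (ρ g) = f P := by
    intro P g hg
    have h1 : (γ P)⁻¹ * g * (γ P)⁻¹⁻¹ ∈ D (P0 (pr P)) := by
      have h2 := D_act (γ P)⁻¹ P g hg
      have h3 : act (γ P)⁻¹ P = P0 (pr P) := hγi P
      rwa [h3] at h2
    have h2 := hf0D _ _ h1
    show Matrix.vecMul (Matrix.vecMul (f0 (P0 (pr P))) (ρ (γ P)⁻¹)) (ρ g) = Matrix.vecMul (f0 (P0 (pr P))) (ρ (γ P)⁻¹)
    conv_rhs => rw [← h2]
    rw [Matrix.vecMul_vecMul, Matrix.vecMul_vecMul, ← d.mul _ (N.inv_mem (hγN P)) _ (D_sub P g hg),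
      ← d.mul _ (D_sub _ _ h1) _ (N.inv_mem (hγN P))]
    congr 2
    group
  have hfN : ∀ P, ∀ h ∈ N, Matrix.vecMul (f (act h P)) (ρ h) = f P := by
    intro P h hh
    have hpr2 : pr (act h P) = pr P := ((hpr1 _ _).2 ⟨h, hh, rfl⟩).symm
    have h1 : act ((γ (act h P))⁻¹ * h * γ P) (P0 (pr P)) = P0 (pr P) := by
      rw [act_mul, act_mul, hγ, hγi, hpr2]
    have hkN : (γ (act h P))⁻¹ * h * γ P ∈ N := N.mul_mem (N.mul_mem (N.inv_mem (hγN _)) hh) (hγN P)
    have h3 := stab _ _ hkN h1 (f0 (P0 (pr P))) (hf0D _)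
    show Matrix.vecMul (Matrix.vecMul (f0 (P0 (pr (act h P)))) (ρ (γ (act h P))⁻¹)) (ρ h) =
      Matrix.vecMul (f0 (P0 (pr P))) (ρ (γ P)⁻¹)
    rw [hpr2]
    conv_rhs => rw [← h3]
    rw [Matrix.vecMul_vecMul, Matrix.vecMul_vecMul, ← d.mul _ (N.inv_mem (hγN _)) _ hh,
      ← d.mul _ hkN _ (N.inv_mem (hγN P))]
    congr 2
    group
  have hline : ∀ P, ∀ f' : Fin 2 → K, (∀ g ∈ D P, Matrix.vecMul f' (ρ g) = f') → ∃ c : K, f' = c • f P := by
    intro P f' hf'
    obtain ⟨c, hc⟩ := hf0l P f' hf'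
    obtain ⟨c', hc'⟩ := hf0l P (f P) (hfD P)
    have hc0 : c' ≠ 0 := by
      rintro rfl
      rw [zero_smul] at hc'
      exact hf P hc'
    refine ⟨c / c', ?_⟩
    rw [hc', smul_smul, div_mul_cancel₀ _ hc0]
    exact hc
  -- the scalars
  have hc : ∀ x P, ∃ c : K, Matrix.vecMul (f (act x P)) (B x) = c • sv (s x) (f P) := by
    intro x P
    have hs : ∀ z, s x (s x⁻¹ z) = z := fun z => by rw [← d.s_mul, mul_inv_cancel, s_one]
    have h1 : sv (s x) (sv (s x⁻¹) (Matrix.vecMul (f (act x P)) (B x))) = Matrix.vecMul (f (act x P)) (B x) := by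
      funext i
      exact hs _
    obtain ⟨c, hc⟩ := hline P (sv (s x⁻¹) (Matrix.vecMul (f (act x P)) (B x))) (by
      intro g hg
      apply sv_inj (s x)
      rw [← sv_vecMul, h1, Matrix.vecMul_vecMul, d.B_int x g (D_sub P g hg), ← Matrix.vecMul_vecMul,
        hfD _ _ (D_act x P g hg)])
    refine ⟨s x c, ?_⟩
    rw [← sv_smul, ← hc, h1]
  choose c hc using hc
  have hcN : ∀ x P, ∀ n ∈ N, c x (act n P) = c x P := by
    intro x P n hn
    apply smul_inj (sv_ne (s x) (hf P))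
    have h1 := congrArg (fun u => Matrix.vecMul u ((ρ n).map (s x))) (hc x (act n P))
    simp only [Matrix.smul_vecMul] at h1
    rw [sv_vecMul, hfN P n hn, Matrix.vecMul_vecMul, d.B_int x n hn, ← Matrix.vecMul_vecMul] at h1
    rw [← h1, ← hc x P]
    have h2 : act x (act n P) = act (x * n * x⁻¹) (act x P) := by
      rw [← act_mul, ← act_mul]
      congr 1
      group
    rw [h2, hfN _ _ (d.nrm n hn x)]
  have hcpr : ∀ x P, c x P = c x (P0 (pr P)) := by
    intro x P
    conv_lhs => rw [← hγ P]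
    exact hcN x _ _ (hγN P)
  have hcoc : ∀ x y P, c x (act y P) * s x (c y P) = a x y * c (x * y) P := by
    intro x y P
    apply smul_inj (sv_ne (s (x * y)) (hf P))
    have h1 := congrArg (fun u => Matrix.vecMul u ((B y).map (s x))) (hc x (act y P))
    simp only [Matrix.smul_vecMul] at h1
    rw [sv_vecMul, hc y P, sv_smul, smul_smul, Matrix.vecMul_vecMul, d.B_mul, Matrix.vecMul_smul, ← act_mul,
      hc (x * y) P, smul_smul] at h1
    rw [h1]
    congr 1
    funext i
    exact d.s_mul x y _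
  -- the product over the orbits
  refine ⟨fun x => ∏ v : S, c x (P0 v), fun x y => ?_, fun g hg b hb => ?_⟩
  · have hinj : Function.Injective fun v : S => pr (act y (P0 v)) := by
      intro v u hvu
      obtain ⟨g, hg, hg2⟩ := (hpr1 _ _).1 hvu
      rw [← hP0 v, ← hP0 u]
      refine (hpr1 _ _).2 ⟨y⁻¹ * g * y, ?_, ?_⟩
      · have h1 := d.nrm g hg y⁻¹
        rwa [inv_inv] at h1
      · rw [act_mul, act_mul, hg2, ← act_mul, inv_mul_cancel, act_one]
    have hbij : Function.Bijective fun v : S => pr (act y (P0 v)) := Finite.injective_iff_bijective.1 hinj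
    have h1 : ∏ v : S, c x (P0 v) = ∏ v : S, c x (act y (P0 v)) := by
      rw [← Function.Bijective.prod_comp hbij fun v => c x (P0 v)]
      exact Finset.prod_congr rfl fun v _ => (hcpr x _).symm
    show (∏ v : S, c x (P0 v)) * s x (∏ v : S, c y (P0 v)) = _ * ∏ v : S, c (x * y) (P0 v)
    rw [h1, map_prod, ← Finset.prod_mul_distrib, Finset.prod_congr rfl fun v _ => hcoc x y (P0 v),
      Finset.prod_mul_distrib, Finset.prod_const, Finset.card_univ]
  · have h1 : ∀ P, c g P = b := by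
      intro P
      apply smul_inj (hf P)
      have h2 := hc g P
      rw [hb, Matrix.vecMul_smul, hfN P g hg] at h2
      rw [h2]
      congr 1
      funext i
      exact (d.s_N g hg _).symm
    show ∏ v : S, c g (P0 v) = _
    rw [Finset.prod_congr rfl fun v _ => h1 (P0 v), Finset.prod_const, Finset.card_univ]

end Pool.Agent.H18.SQ
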