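import Pool.Agent.H44.TW.XDefs
import Pool.Agent.H44.TW.ADefs

/-!
# Root numbers and semilinear extensions: definitions
-/

set_option autoImplicit false

open NumberField Matrix

namespace Pool.Agent.H18.SQ

open Pool.Agent.H44.TW

/-- the Euler product over the good primes `v`, with the eigenvalues `C v`, is entire and its order of vanishing at the
centre `s = 0` is `m` -/
def EulerOrd {F : Type} [Field F] [NumberField F] (bad : Ideal (𝓞 F)) (C : Ideal (𝓞 F) → ℂ) (m : ℕ) : Prop :=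
  ∃ Λ : ℂ → ℂ, Differentiable ℂ Λ ∧
    (∀ s : ℂ, 1 < s.re → HasProd (fun v : Good bad =>
      (1 - C v.1 * (Ideal.absNorm v.1 : ℂ) ^ (-1 - s) + (Ideal.absNorm v.1 : ℂ) ^ (-1 - 2 * s))⁻¹) (Λ s)) ∧
    analyticOrderAt Λ 0 = (m : ℕ∞)

/-- `v` is a prime of `F`, and for every prime `P` of the algebraic closure above `v`, the functionals on `K²` which are
fixed by the decomposition group of `P` in `G_F` form a line -/
def Line {K : Type} [Field K] {F : IntermediateField ℚ (AlgebraicClosure ℚ)} [NumberField F]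
    (ρ : F.fixingSubgroup →* Matrix (Fin 2) (Fin 2) K) (v : Ideal (𝓞 F)) : Prop :=
  v.IsPrime ∧ ∀ P : Ideal (𝓞 (AlgebraicClosure ℚ)), P.IsPrime →
    P.comap (algebraMap (𝓞 F) (𝓞 (AlgebraicClosure ℚ))) = v → ∃ f : Fin 2 → K, f ≠ 0 ∧
      ∀ f' : Fin 2 → K, (∀ g : F.fixingSubgroup, (∀ z : 𝓞 (AlgebraicClosure ℚ),
        (g : (AlgebraicClosure ℚ) ≃ₐ[ℚ] (AlgebraicClosure ℚ)) • z ∈ P ↔ z ∈ P) → Matrix.vecMul f' (ρ g) = f') ↔
        ∃ c : K, f' = c • f

/-- the automorphism `τ` of `F` induced by `x = (t, γ)` preserves the set `S` of primes -/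
def Keeps {p : ℕ} [Fact p.Prime] {K : Type} [NontriviallyNormedField K] [NormedAlgebra ℚ_[p] K]
    {F : IntermediateField ℚ (AlgebraicClosure ℚ)} [NumberField F] (S : Finset (Ideal (𝓞 F))) (x : Pr p K) : Prop :=
  ∀ τ : F ≃ₐ[ℚ] F, (∀ y : F, x.1 y = τ y) →
    ∀ v ∈ S, v.map (RingOfIntegers.mapRingHom τ.toRingEquiv.toRingHom) ∈ S

/-- the automorphism `τ` of `F` induced by `x = (t, γ)` preserves the weights modulo `4` -/
def KeepsW {p : ℕ} [Fact p.Prime] {K : Type} [NontriviallyNormedField K] [NormedAlgebra ℚ_[p] K]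
    {F : IntermediateField ℚ (AlgebraicClosure ℚ)} (k : (F →+* ℝ) → ℕ) (x : Pr p K) : Prop :=
  ∀ τ : F ≃ₐ[ℚ] F, (∀ y : F, x.1 y = τ y) →
    ∀ σ : F →+* ℝ, k (σ.comp τ.toRingEquiv.toRingHom) ≡ k σ [MOD 4]

end Pool.Agent.H18.SQ
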