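import Pool.Agent.H18.SQ.Grp
import Pool.Agent.H18.SQ.Defs
import Pool.Agent.H44.TW.GEx

/-!
# The lines at the finite places
-/

set_option autoImplicit false
set_option linter.style.haveILetI false

open NumberField Matrix Polynomial
open scoped Pointwise
open Pool.Agent.H44.PC Pool.Agent.H44.TW

namespace Pool.Agent.H18.SQ

noncomputable section

variable {F : IntermediateField ℚ (AlgebraicClosure ℚ)} [NumberField F]

/-- transitivity of the Galois group on the primes above a prime -/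
theorem exists_gal_prime (P Q : Ideal (𝓞 (AlgebraicClosure ℚ))) (hP : P.IsPrime) (hQ : Q.IsPrime)
    (h : P.comap (algebraMap (𝓞 F) (𝓞 (AlgebraicClosure ℚ))) = Q.comap (algebraMap (𝓞 F) (𝓞 (AlgebraicClosure ℚ)))) :
    ∃ g : F.fixingSubgroup, Q = P.comap (Tw.ooMap (g : (AlgebraicClosure ℚ) ≃ₐ[ℚ] (AlgebraicClosure ℚ))⁻¹) := by
  letI : TopologicalSpace (𝓞 (AlgebraicClosure ℚ)) := ⊥
  haveI : DiscreteTopology (𝓞 (AlgebraicClosure ℚ)) := ⟨rfl⟩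
  haveI : ContinuousSMul ((AlgebraicClosure ℚ) ≃ₐ[ℚ] (AlgebraicClosure ℚ)) (𝓞 (AlgebraicClosure ℚ)) := contSMul
  haveI : ContinuousSMul F.fixingSubgroup (𝓞 (AlgebraicClosure ℚ)) := by
    constructor
    have h : Continuous fun q : ((AlgebraicClosure ℚ) ≃ₐ[ℚ] (AlgebraicClosure ℚ)) × 𝓞 (AlgebraicClosure ℚ) => q.1 • q.2 :=
      continuous_smul
    exact h.comp (Continuous.prodMk (continuous_subtype_val.comp continuous_fst) continuous_snd)
  obtain ⟨g, hg⟩ := Algebra.IsInvariant.exists_smul_of_under_eq_of_profinite (A := 𝓞 F) (G := F.fixingSubgroup) P Q h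
  refine ⟨g, ?_⟩
  ext z
  rw [hg, Ideal.mem_pointwise_smul_iff_inv_smul_mem, Ideal.mem_comap]
  rfl

/-- there is a prime above every prime -/
theorem exists_prime_over (v : Ideal (𝓞 F)) (hv : v.IsPrime) : ∃ P : Ideal (𝓞 (AlgebraicClosure ℚ)), P.IsPrime ∧
    P.comap (algebraMap (𝓞 F) (𝓞 (AlgebraicClosure ℚ))) = v := by
  obtain ⟨P, hP, hPv⟩ := Ideal.exists_ideal_over_prime_of_isIntegral v (⊥ : Ideal (𝓞 (AlgebraicClosure ℚ))) (by
    intro x hx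
    rw [Ideal.mem_comap, Ideal.mem_bot] at hx
    have : x = 0 := by
      have h5 : Function.Injective (algebraMap (𝓞 F) (𝓞 (AlgebraicClosure ℚ))) :=
        FaithfulSMul.algebraMap_injective _ _
      exact (map_eq_zero_iff _ h5).1 hx
    rw [this]
    exact v.zero_mem)
  exact ⟨P, hPv.1, hPv.2⟩

/-- the prime `t P` -/
def tr (t : (AlgebraicClosure ℚ) ≃ₐ[ℚ] (AlgebraicClosure ℚ)) (P : Ideal (𝓞 (AlgebraicClosure ℚ))) :
    Ideal (𝓞 (AlgebraicClosure ℚ)) := P.comap (Tw.ooMap t⁻¹)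

theorem mem_tr {t : (AlgebraicClosure ℚ) ≃ₐ[ℚ] (AlgebraicClosure ℚ)} {P : Ideal (𝓞 (AlgebraicClosure ℚ))}
    {z : 𝓞 (AlgebraicClosure ℚ)} : z ∈ tr t P ↔ t⁻¹ • z ∈ P := Iff.rfl

theorem tr_mul (t t' : (AlgebraicClosure ℚ) ≃ₐ[ℚ] (AlgebraicClosure ℚ)) (P : Ideal (𝓞 (AlgebraicClosure ℚ))) :
    tr (t * t') P = tr t (tr t' P) := by
  ext z
  rw [mem_tr, mem_tr, mem_tr, smul_smul, _root_.mul_inv_rev]

theorem tr_one (P : Ideal (𝓞 (AlgebraicClosure ℚ))) : tr 1 P = P := by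
  ext z
  rw [mem_tr, inv_one, one_smul]

theorem tr_prime {t : (AlgebraicClosure ℚ) ≃ₐ[ℚ] (AlgebraicClosure ℚ)} {P : Ideal (𝓞 (AlgebraicClosure ℚ))}
    (hP : P.IsPrime) : (tr t P).IsPrime := Ideal.comap_isPrime _ _

/-- the prime of `F` below `t P` -/
theorem tr_comap {t : (AlgebraicClosure ℚ) ≃ₐ[ℚ] (AlgebraicClosure ℚ)} {τ : F ≃ₐ[ℚ] F} (h : ∀ y : F, t y = τ y)
    (P : Ideal (𝓞 (AlgebraicClosure ℚ))) : (tr t P).comap (algebraMap (𝓞 F) (𝓞 (AlgebraicClosure ℚ))) =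
      (P.comap (algebraMap (𝓞 F) (𝓞 (AlgebraicClosure ℚ)))).map
        (RingOfIntegers.mapRingHom τ.toRingEquiv.toRingHom) := by
  have hi : ∀ y : F, t⁻¹ (y : AlgebraicClosure ℚ) = (τ.symm y : F) := by
    intro y
    have h1 := h (τ.symm y)
    rw [τ.apply_symm_apply] at h1
    rw [← h1]
    exact t.symm_apply_apply _
  have hs : Function.Surjective (RingOfIntegers.mapRingHom τ.toRingEquiv.toRingHom : 𝓞 F →+* 𝓞 F) := by
    intro z
    refine ⟨RingOfIntegers.mapRingHom τ.symm.toRingEquiv.toRingHom z, ?_⟩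
    apply RingOfIntegers.coe_injective
    exact τ.apply_symm_apply z
  have hco : ((tr t P).comap (algebraMap (𝓞 F) (𝓞 (AlgebraicClosure ℚ)))).comap
      (RingOfIntegers.mapRingHom τ.toRingEquiv.toRingHom) = P.comap (algebraMap (𝓞 F) (𝓞 (AlgebraicClosure ℚ))) := by
    ext z
    rw [Ideal.mem_comap, Ideal.mem_comap, Ideal.mem_comap, mem_tr]
    have h1 : t⁻¹ • algebraMap (𝓞 F) (𝓞 (AlgebraicClosure ℚ)) (RingOfIntegers.mapRingHom τ.toRingEquiv.toRingHom z) =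
        algebraMap (𝓞 F) (𝓞 (AlgebraicClosure ℚ)) z := by
      apply RingOfIntegers.coe_injective
      have h2 := hi (τ (z : F))
      rw [τ.symm_apply_apply] at h2
      exact h2
    rw [h1]
  rw [← hco, Ideal.map_comap_of_surjective _ hs]

variable {p : ℕ} [Fact p.Prime] {K : Type} [NontriviallyNormedField K] [NormedAlgebra ℚ_[p] K]

/-- the product over the finite places -/
theorem exists_delta_fin {ρ : F.fixingSubgroup →* Matrix (Fin 2) (Fin 2) K} {𝒢 : Subgroup (Pr p K)}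
    (hel : ∀ g ∈ F.fixingSubgroup, el p K g ∈ 𝒢) {B : 𝒢 → Matrix (Fin 2) (Fin 2) K} {a : 𝒢 → 𝒢 → K}
    (d : Dat sg (NN F 𝒢) (rr ρ) B a) (S : Finset (Ideal (𝓞 F))) (hS : ∀ v ∈ S, Line ρ v)
    (hind : ∀ x ∈ 𝒢, ∃ τ : F ≃ₐ[ℚ] F, (∀ y : F, x.1 y = τ y) ∧
      ∀ v ∈ S, v.map (RingOfIntegers.mapRingHom τ.toRingEquiv.toRingHom) ∈ S) :
    ∃ δ : 𝒢 → K, (∀ x y, δ x * sg x (δ y) = a x y ^ S.card * δ (x * y)) ∧
      ∀ g ∈ NN F 𝒢, ∀ b : K, B g = b • rr ρ g → δ g = b ^ S.card := by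
  let Ω : Type := {P : Ideal (𝓞 (AlgebraicClosure ℚ)) //
    P.IsPrime ∧ P.comap (algebraMap (𝓞 F) (𝓞 (AlgebraicClosure ℚ))) ∈ S}
  have hact : ∀ (x : 𝒢) (P : Ω), (tr x.1.1 P.1).comap (algebraMap (𝓞 F) (𝓞 (AlgebraicClosure ℚ))) ∈ S := by
    intro x P
    obtain ⟨τ, hτ, hτ2⟩ := hind x.1 x.2
    rw [tr_comap hτ]
    exact hτ2 _ P.2.2
  let act : 𝒢 → Ω → Ω := fun x P => ⟨tr x.1.1 P.1, tr_prime P.2.1, hact x P⟩
  let pr : Ω → S := fun P => ⟨_, P.2.2⟩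
  let D : Ω → Set 𝒢 := fun P => {g | g ∈ NN F 𝒢 ∧ ∀ z : 𝓞 (AlgebraicClosure ℚ), g.1.1 • z ∈ P.1 ↔ z ∈ P.1}
  have hfixN : ∀ g ∈ F.fixingSubgroup, ∀ y : F, g y = (AlgEquiv.refl : F ≃ₐ[ℚ] F) y := fun g hg y =>
    (IntermediateField.mem_fixingSubgroup_iff _ _).1 hg _ y.2
  have hmapid : ∀ v : Ideal (𝓞 F), v.map (RingOfIntegers.mapRingHom
      (AlgEquiv.refl : F ≃ₐ[ℚ] F).toRingEquiv.toRingHom) = v := by
    intro v
    have h1 : RingOfIntegers.mapRingHom (AlgEquiv.refl : F ≃ₐ[ℚ] F).toRingEquiv.toRingHom = RingHom.id (𝓞 F) := by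
      refine RingHom.ext fun z => ?_
      apply RingOfIntegers.coe_injective
      rfl
    rw [h1, Ideal.map_id]
  have key := exists_delta d (Ω := Ω) (S := S) act
    (fun x y P => Subtype.ext (tr_mul _ _ _)) (fun P => Subtype.ext (tr_one _)) pr
    (fun v => by
      obtain ⟨P, hP, hPv⟩ := exists_prime_over v.1 (hS v.1 v.2).1
      refine ⟨⟨P, hP, ?_⟩, Subtype.ext hPv⟩
      rw [hPv]
      exact v.2)
    (fun P P' => by
      constructor
      · intro h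
        obtain ⟨g, hg⟩ := exists_gal_prime P.1 P'.1 P.2.1 P'.2.1 (congrArg Subtype.val h)
        refine ⟨⟨el p K g, hel g g.2⟩, ⟨g.2, rfl⟩, ?_⟩
        exact Subtype.ext hg.symm
      · rintro ⟨g, ⟨hg, -⟩, rfl⟩
        apply Subtype.ext
        show P.1.comap (algebraMap (𝓞 F) (𝓞 (AlgebraicClosure ℚ))) =
          (tr g.1.1 P.1).comap (algebraMap (𝓞 F) (𝓞 (AlgebraicClosure ℚ)))
        rw [tr_comap (hfixN _ hg), hmapid])
    D (fun P g hg => hg.1) (fun x P g hg => by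
      refine ⟨d.nrm g hg.1 x, fun z => ?_⟩
      show (x.1.1 * g.1.1 * x.1.1⁻¹) • z ∈ tr x.1.1 P.1 ↔ z ∈ tr x.1.1 P.1
      rw [mem_tr, mem_tr, smul_smul]
      have h1 : x.1.1⁻¹ * (x.1.1 * g.1.1 * x.1.1⁻¹) = g.1.1 * x.1.1⁻¹ := by group
      rw [h1, ← smul_smul]
      exact hg.2 _)
    (fun P => by
      obtain ⟨f, hf, hf2⟩ := (hS _ P.2.2).2 P.1 P.2.1 rfl
      have h1 : ∀ f' : Fin 2 → K, (∀ g ∈ D P, Matrix.vecMul f' (rr ρ g) = f') ↔ ∃ c : K, f' = c • f := by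
        intro f'
        rw [← hf2 f']
        constructor
        · intro h g hg
          have h2 := h ⟨el p K g, hel g g.2⟩ ⟨⟨g.2, rfl⟩, hg⟩
          rw [rr_eq ρ ⟨el p K g, hel g g.2⟩ g.2] at h2
          exact h2
        · intro h g hg
          rw [rr_eq ρ g hg.1.1]
          exact h ⟨_, hg.1.1⟩ hg.2
      refine ⟨f, hf, (h1 f).2 ⟨1, (one_smul K f).symm⟩, fun f' hf' => (h1 f').1 hf'⟩)
    (fun P g hg hP f hf => by
      refine hf g ⟨hg, fun z => ?_⟩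
      have h1 : tr g.1.1 P.1 = P.1 := congrArg Subtype.val hP
      have h2 : g.1.1 • z ∈ tr g.1.1 P.1 ↔ z ∈ P.1 := by
        rw [mem_tr, inv_smul_smul]
      rwa [h1] at h2)
  rw [Fintype.card_coe] at key
  exact key

end

end Pool.Agent.H18.SQ
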