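import Pool.Agent.H44.TW.XMain
import Pool.Agent.H18.SQ.Asm

/-!
# The projective semilinear representation of the group of pairs
-/

set_option autoImplicit false

open NumberField Matrix Polynomial
open Pool.Agent.H44.PC Pool.Agent.H44.TW

namespace Pool.Agent.H18.SQ

variable {p : ℕ} [Fact p.Prime] {K : Type} [NontriviallyNormedField K] [NormedAlgebra ℚ_[p] K]
  {F : IntermediateField ℚ (AlgebraicClosure ℚ)}

/-- the pair `(g, 1)` -/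
noncomputable def el (p : ℕ) [Fact p.Prime] (K : Type) [NontriviallyNormedField K] [NormedAlgebra ℚ_[p] K]
    (g : (AlgebraicClosure ℚ) ≃ₐ[ℚ] (AlgebraicClosure ℚ)) : Pr p K := (g, (1 : K ≃ₐ[ℚ_[p]] K))

/-- the automorphism of `K` of a pair -/
noncomputable def sg {𝒢 : Subgroup (Pr p K)} (x : 𝒢) : K →+* K := hm x.1.2

/-- the pairs `(g, 1)`, `g` in the group of `F` -/
def NN (F : IntermediateField ℚ (AlgebraicClosure ℚ)) (𝒢 : Subgroup (Pr p K)) : Subgroup 𝒢 where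
  carrier := {x | x.1.1 ∈ F.fixingSubgroup ∧ x.1.2 = 1}
  mul_mem' := by
    rintro x y ⟨hx, hx2⟩ ⟨hy, hy2⟩
    refine ⟨F.fixingSubgroup.mul_mem hx hy, ?_⟩
    show x.1.2 * y.1.2 = 1
    rw [hx2, hy2, one_mul]
  one_mem' := ⟨F.fixingSubgroup.one_mem, rfl⟩
  inv_mem' := by
    rintro x ⟨hx, hx2⟩
    refine ⟨F.fixingSubgroup.inv_mem hx, ?_⟩
    show x.1.2⁻¹ = 1
    rw [hx2, inv_one]

open Classical in
/-- the representation `ρ` -/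
noncomputable def rr (ρ : F.fixingSubgroup →* Matrix (Fin 2) (Fin 2) K) {𝒢 : Subgroup (Pr p K)} (x : 𝒢) :
    Matrix (Fin 2) (Fin 2) K := if h : x.1.1 ∈ F.fixingSubgroup then ρ ⟨x.1.1, h⟩ else 1

theorem rr_eq (ρ : F.fixingSubgroup →* Matrix (Fin 2) (Fin 2) K) {𝒢 : Subgroup (Pr p K)} (x : 𝒢)
    (h : x.1.1 ∈ F.fixingSubgroup) : rr ρ x = ρ ⟨x.1.1, h⟩ := dif_pos h

variable [NumberField F] {E : Subfield ℂ}

theorem exists_dat {bad : Ideal (𝓞 F)} (hbad : bad ≠ ⊥) {C : Ideal (𝓞 F) → ℂ} {ι : E →+* K}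
    {ρ : F.fixingSubgroup →* Matrix (Fin 2) (Fin 2) K} (hirr : Submodule.span K (Set.range ρ) = ⊤)
    (hρ : Att (K := K) ι p (fun v => ¬ bad ≤ v) C ρ) (𝒢 : Subgroup (Pr p K)) (h𝒢 : ∀ x ∈ 𝒢, Fixes ι bad C x) :
    ∃ (B : 𝒢 → Matrix (Fin 2) (Fin 2) K) (a : 𝒢 → 𝒢 → K), Dat sg (NN F 𝒢) (rr ρ) B a ∧ (∀ x, (B x).det ≠ 0) ∧
      ∀ g ∈ NN F 𝒢, ∃ b : K, B g = b • rr ρ g := by
  have hp : p.Prime := Fact.out
  have hex : ∀ x : 𝒢, ∃ B B' : Matrix (Fin 2) (Fin 2) K, Sw ρ x.1.1 x.1.2 B B' := by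
    intro x
    obtain ⟨hc, τ, hτ, hC⟩ := h𝒢 x.1 x.2
    refine exists_sw hirr (fun y hy => ?_) hc (trace_conj hp hbad hρ τ x.1.1 hτ x.1.2 hc hC)
    rw [hτ ⟨y, hy⟩]
    exact SetLike.coe_mem _
  choose B B' hB using hex
  have hmul : ∀ x y : 𝒢, ∃ a : K, B x * (B y).map x.1.2 = a • B (x * y) := fun x y =>
    exists_mul (hB x) (hB y) (hB (x * y)) hirr
  choose a ha using hmul
  refine ⟨B, a, ⟨?_, ?_, ?_, ?_, ?_, ?_, ?_⟩, ?_, ?_⟩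
  · intro x y z
    rfl
  · rintro g ⟨hg, hg2⟩ x
    refine ⟨(hB x).nrm' _ hg, ?_⟩
    show x.1.2 * g.1.2 * x.1.2⁻¹ = 1
    rw [hg2, mul_one, mul_inv_cancel]
  · rintro g ⟨hg, hg2⟩ z
    show g.1.2 z = z
    rw [hg2]
    rfl
  · rw [rr_eq ρ 1 F.fixingSubgroup.one_mem]
    exact map_one ρ
  · rintro g ⟨hg, hg2⟩ h ⟨hh, hh2⟩
    rw [rr_eq ρ g hg, rr_eq ρ h hh, rr_eq ρ (g * h) (F.fixingSubgroup.mul_mem hg hh), ← map_mul]
    rfl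
  · exact fun x y => ha x y
  · rintro x g ⟨hg, hg2⟩
    have h1 : (x * g * x⁻¹).1.1 ∈ F.fixingSubgroup := (hB x).nrm' _ hg
    rw [rr_eq ρ g hg, rr_eq ρ (x * g * x⁻¹) h1, ← (hB x).int ⟨_, h1⟩]
    congr 2
    have h2 : (⟨g.1.1, hg⟩ : F.fixingSubgroup) =
        ⟨x.1.1⁻¹ * ((⟨(x * g * x⁻¹).1.1, h1⟩ : F.fixingSubgroup) : (AlgebraicClosure ℚ) ≃ₐ[ℚ] (AlgebraicClosure ℚ)) *
          x.1.1, (hB x).nrm _ h1⟩ := by
      apply Subtype.ext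
      show g.1.1 = x.1.1⁻¹ * (x.1.1 * g.1.1 * x.1.1⁻¹) * x.1.1
      group
    rw [← h2]
  · intro x h0
    have h1 := congrArg Matrix.det (hB x).inv
    rw [Matrix.det_mul, h0, zero_mul, Matrix.det_one] at h1
    exact zero_ne_one h1
  · rintro g ⟨hg, hg2⟩
    have h1 : ∀ z : K, (g.1.2)^[1] z = z := fun z => by
      rw [Function.iterate_one, hg2]
      rfl
    have h2 : g.1.1 ^ 1 ∈ F.fixingSubgroup := by
      rw [pow_one]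
      exact hg
    obtain ⟨c, hc⟩ := exists_scalar (hB g) hirr 1 h1 h2
    refine ⟨c, ?_⟩
    have h4 : mprod g.1.2 (B g) 1 = B g := by
      show B g * (1 : Matrix (Fin 2) (Fin 2) K).map _ = B g
      rw [Matrix.map_one _ (map_zero _) (map_one _), Matrix.mul_one]
    rw [h4] at hc
    rw [hc, rr_eq ρ g hg]
    congr 2

omit [NumberField F] in
/-- a semilinear extension to a group of pairs, as a function on the group -/
theorem extends_of {ρ : F.fixingSubgroup →* Matrix (Fin 2) (Fin 2) K} (𝒢 : Subgroup (Pr p K))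
    (R : 𝒢 → Matrix (Fin 2) (Fin 2) K) (hR : ∀ x y, R (x * y) = R x * (R y).map (sg x))
    (hRρ : ∀ g ∈ NN F 𝒢, R g = rr ρ g) : Extends ρ 𝒢 := by
  classical
  let R' : Pr p K → Matrix (Fin 2) (Fin 2) K := fun x => if h : x ∈ 𝒢 then R ⟨x, h⟩ else 0
  have hR' : ∀ (x : Pr p K) (hx : x ∈ 𝒢), R' x = R ⟨x, hx⟩ := fun x hx => dif_pos hx
  refine ⟨R', fun x hx y hy => ?_, fun x hx g hg h1 => ?_⟩
  · rw [hR' x hx, hR' y hy, hR' _ (𝒢.mul_mem hx hy)]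
    exact hR ⟨x, hx⟩ ⟨y, hy⟩
  · have h2 : x.1 ∈ F.fixingSubgroup := by
      rw [hg]
      exact g.2
    rw [hR' x hx, hRρ ⟨x, hx⟩ ⟨h2, h1⟩, rr_eq ρ ⟨x, hx⟩ h2]
    congr 1
    exact Subtype.ext hg

/-- the two inputs give an extension -/
theorem extends_of_delta {bad : Ideal (𝓞 F)} (hbad : bad ≠ ⊥) {C : Ideal (𝓞 F) → ℂ} {ι : E →+* K}
    {ρ : F.fixingSubgroup →* Matrix (Fin 2) (Fin 2) K} (hρ : Att (K := K) ι p (fun v => ¬ bad ≤ v) C ρ)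
    (𝒢 : Subgroup (Pr p K)) {B : 𝒢 → Matrix (Fin 2) (Fin 2) K} {a : 𝒢 → 𝒢 → K} (d : Dat sg (NN F 𝒢) (rr ρ) B a)
    (hBu : ∀ x, (B x).det ≠ 0) (hB : ∀ g ∈ NN F 𝒢, ∃ b : K, B g = b • rr ρ g) {m : ℕ} (hm : Odd m) (δ : 𝒢 → K)
    (hδ : ∀ x y, δ x * sg x (δ y) = a x y ^ m * δ (x * y))
    (hδ2 : ∀ g ∈ NN F 𝒢, ∀ b : K, B g = b • rr ρ g → δ g = b ^ m) : Extends ρ 𝒢 := by
  obtain ⟨R, hR, hRρ⟩ := exists_ext d hBu hB (fun x => cy p K x.1.1) (fun x y => cy_mul p K _ _)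
    (fun x => cy_ne_zero p K _) (fun x y => x.1.2.commutes _) (by
      rintro g ⟨hg, -⟩
      rw [rr_eq ρ g hg]
      exact det_eq_cy hbad hρ ⟨_, hg⟩) hm δ hδ hδ2
  exact extends_of 𝒢 R hR hRρ

end Pool.Agent.H18.SQ
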