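import Pool.Agent.H44.TW.XCyc

/-!
# Real places: complex conjugations in the absolute Galois group
-/

set_option autoImplicit false
set_option linter.style.haveILetI false

open NumberField

namespace Pool.Agent.H18.SQ

/-- two embeddings of `Qbar` which agree on `F` differ by an element of `G_F` -/
theorem exists_gal {F : IntermediateField ℚ (AlgebraicClosure ℚ)} (φ φ' : AlgebraicClosure ℚ →+* ℂ)
    (h : ∀ x : F, φ x = φ' x) :
    ∃ g : F.fixingSubgroup, ∀ x,
      φ' x = φ (((g : (AlgebraicClosure ℚ) ≃ₐ[ℚ] (AlgebraicClosure ℚ))⁻¹) x) := by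
  obtain ⟨σ, hσ⟩ := NumberField.ComplexEmbedding.exists_comp_symm_eq_of_comp_eq (k := F) φ φ'
    (RingHom.ext fun x => h x)
  refine ⟨(IntermediateField.fixingSubgroupEquiv F).symm σ, fun x => ?_⟩
  rw [← hσ]
  rfl

/-- complex conjugations lie in `G_F` if `F` is totally real -/
theorem exists_cc {F : IntermediateField ℚ (AlgebraicClosure ℚ)} [NumberField F] [IsTotallyReal F]
    (φ : AlgebraicClosure ℚ →+* ℂ) :
    ∃ c : F.fixingSubgroup, ∀ x,
      φ ((c : (AlgebraicClosure ℚ) ≃ₐ[ℚ] (AlgebraicClosure ℚ)) x) = starRingEnd ℂ (φ x) := by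
  have hr : ComplexEmbedding.IsReal (φ.comp (algebraMap F (AlgebraicClosure ℚ))) := by
    rw [← InfinitePlace.isReal_mk_iff]
    exact IsTotallyReal.isReal _
  obtain ⟨g, hg⟩ := exists_gal (F := F) φ ((starRingEnd ℂ).comp φ) (fun x =>
    (RingHom.congr_fun hr x).symm)
  exact ⟨g⁻¹, fun x => (hg x).symm⟩

/-- every real place of `F` extends to an embedding of `Qbar` -/
theorem exists_over {F : IntermediateField ℚ (AlgebraicClosure ℚ)} (σ : F →+* ℝ) :
    ∃ φ : AlgebraicClosure ℚ →+* ℂ, ∀ x : F, φ x = (σ x : ℂ) := by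
  letI : Algebra F ℂ := ((algebraMap ℝ ℂ).comp σ).toAlgebra
  haveI : Algebra.IsAlgebraic F (AlgebraicClosure ℚ) := Algebra.IsAlgebraic.tower_top (K := ℚ) F
  refine ⟨(IsAlgClosed.lift (R := F) (S := AlgebraicClosure ℚ) (M := ℂ)).toRingHom, fun x => ?_⟩
  exact (IsAlgClosed.lift (R := F) (S := AlgebraicClosure ℚ) (M := ℂ)).commutes x

private theorem val_neg_one' {m : ℕ} (hm : 0 < m) : (-1 : ZMod m).val = m - 1 := by
  obtain ⟨k, rfl⟩ := Nat.exists_eq_succ_of_ne_zero hm.ne'
  rw [ZMod.val_neg_one]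
  rfl

/-- the cyclotomic character is `-1` at complex conjugations -/
theorem cy_cc (p : ℕ) [Fact p.Prime] (K : Type) [Field K] [Algebra ℚ_[p] K]
    (c : (AlgebraicClosure ℚ) ≃ₐ[ℚ] (AlgebraicClosure ℚ)) (φ : AlgebraicClosure ℚ →+* ℂ)
    (h : ∀ x, φ (c x) = starRingEnd ℂ (φ x)) : Pool.Agent.H44.TW.cy p K c = -1 := by
  have h1 : ((cyclotomicCharacter (AlgebraicClosure ℚ) p c.toRingEquiv : ℤ_[p]ˣ) : ℤ_[p]) = -1 := by
    refine PadicInt.ext_of_toZModPow.mp fun n => ?_
    rw [cyclotomicCharacter.toZModPow, map_neg, map_one]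
    symm
    refine modularCyclotomicCharacter.unique _ _ _ fun t ht => ?_
    have hp : 0 < p ^ n := pow_pos (Fact.out : p.Prime).pos n
    have ht' : ((t : (AlgebraicClosure ℚ)ˣ) : AlgebraicClosure ℚ) ^ (p ^ n) = 1 := by
      have := congrArg Units.val ((mem_rootsOfUnity _ _).1 ht)
      simpa using this
    have hinv : c (t : AlgebraicClosure ℚ) = (t : AlgebraicClosure ℚ)⁻¹ := by
      apply φ.injective
      rw [h, map_inv₀]
      have hn : ‖φ (t : AlgebraicClosure ℚ)‖ = 1 := by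
        have : (φ (t : AlgebraicClosure ℚ)) ^ (p ^ n) = 1 := by rw [← map_pow, ht', map_one]
        exact Complex.norm_eq_one_of_pow_eq_one this hp.ne'
      exact (Complex.inv_eq_conj hn).symm
    have hval : (t : AlgebraicClosure ℚ) ^ ((-1 : ZMod (p ^ n)).val) = (t : AlgebraicClosure ℚ)⁻¹ := by
      rw [val_neg_one' hp]
      refine eq_inv_of_mul_eq_one_left ?_
      rw [← pow_succ, Nat.sub_add_cancel hp, ht']
    rw [hval]
    exact hinv
  rw [Pool.Agent.H44.TW.cy, h1]
  simp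

end Pool.Agent.H18.SQ
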