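import Pool.Agent.H18.SQ.Grp
import Pool.Agent.H18.SQ.Real

/-!
# The lines at the real places
-/

set_option autoImplicit false

open NumberField Matrix Polynomial
open Pool.Agent.H44.PC Pool.Agent.H44.TW

namespace Pool.Agent.H18.SQ

noncomputable section

variable {F : IntermediateField ℚ (AlgebraicClosure ℚ)} [NumberField F] [IsTotallyReal F]
  {p : ℕ} [Fact p.Prime] {K : Type} [NontriviallyNormedField K] [NormedAlgebra ℚ_[p] K]

/-- the embedding `φ ∘ t⁻¹` -/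
def mv (t : (AlgebraicClosure ℚ) ≃ₐ[ℚ] (AlgebraicClosure ℚ)) (φ : AlgebraicClosure ℚ →+* ℂ) :
    AlgebraicClosure ℚ →+* ℂ := φ.comp (t⁻¹ : (AlgebraicClosure ℚ) ≃ₐ[ℚ] (AlgebraicClosure ℚ)).toRingEquiv.toRingHom

theorem mv_apply (t : (AlgebraicClosure ℚ) ≃ₐ[ℚ] (AlgebraicClosure ℚ)) (φ : AlgebraicClosure ℚ →+* ℂ)
    (z : AlgebraicClosure ℚ) : mv t φ z = φ (t⁻¹ z) := rfl

/-- the product over the real places -/
theorem exists_delta_inf {E : Subfield ℂ} {bad : Ideal (𝓞 F)} (hbad : bad ≠ ⊥) {C : Ideal (𝓞 F) → ℂ} {ι : E →+* K}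
    {ρ : F.fixingSubgroup →* Matrix (Fin 2) (Fin 2) K} (hρ : Att (K := K) ι p (fun v => ¬ bad ≤ v) C ρ)
    {𝒢 : Subgroup (Pr p K)} (hel : ∀ g ∈ F.fixingSubgroup, el p K g ∈ 𝒢) {B : 𝒢 → Matrix (Fin 2) (Fin 2) K}
    {a : 𝒢 → 𝒢 → K} (d : Dat sg (NN F 𝒢) (rr ρ) B a) (U : Finset (F →+* ℝ))
    (hind : ∀ x ∈ 𝒢, ∃ τ : F ≃ₐ[ℚ] F, (∀ y : F, x.1 y = τ y) ∧
      ∀ σ : F →+* ℝ, σ.comp τ.toRingEquiv.toRingHom ∈ U ↔ σ ∈ U) :
    ∃ δ : 𝒢 → K, (∀ x y, δ x * sg x (δ y) = a x y ^ U.card * δ (x * y)) ∧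
      ∀ g ∈ NN F 𝒢, ∀ b : K, B g = b • rr ρ g → δ g = b ^ U.card := by
  classical
  let Ω : Type := {q : (AlgebraicClosure ℚ →+* ℂ) × U // ∀ y : F, q.1 y = ((q.2.1 y : ℝ) : ℂ)}
  have hact : ∀ (x : 𝒢) (q : Ω), ∃ σ : U, ∀ y : F, mv x.1.1 q.1.1 y = ((σ.1 y : ℝ) : ℂ) := by
    intro x q
    obtain ⟨τ, hτ, hτ2⟩ := hind x.1 x.2
    have h1 : (q.1.2.1.comp τ.symm.toRingEquiv.toRingHom).comp τ.toRingEquiv.toRingHom = q.1.2.1 := by
      refine RingHom.ext fun y => ?_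
      show q.1.2.1 (τ.symm (τ y)) = q.1.2.1 y
      rw [τ.symm_apply_apply]
    refine ⟨⟨q.1.2.1.comp τ.symm.toRingEquiv.toRingHom, ?_⟩, fun y => ?_⟩
    · rw [← hτ2, h1]
      exact q.1.2.2
    · have h2 : x.1.1⁻¹ (y : AlgebraicClosure ℚ) = (τ.symm y : F) := by
        have h3 := hτ (τ.symm y)
        rw [τ.apply_symm_apply] at h3
        rw [← h3]
        exact x.1.1.symm_apply_apply _
      rw [mv_apply, h2]
      exact q.2 (τ.symm y)
  choose ac hac using hact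
  let act : 𝒢 → Ω → Ω := fun x q => ⟨(mv x.1.1 q.1.1, ac x q), hac x q⟩
  have hΩ : ∀ q q' : Ω, q.1.1 = q'.1.1 → q = q' := by
    intro q q' h
    apply Subtype.ext
    refine Prod.ext h ?_
    apply Subtype.ext
    refine RingHom.ext fun y => ?_
    have h1 := q.2 y
    rw [h, q'.2 y] at h1
    exact_mod_cast h1.symm
  let pr : Ω → U := fun q => q.1.2
  let D : Ω → Set 𝒢 := fun q => {g | g ∈ NN F 𝒢 ∧ ∀ z, q.1.1 (g.1.1 z) = starRingEnd ℂ (q.1.1 z)}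
  have key := exists_delta d (Ω := Ω) (S := U) act
    (fun x y q => hΩ _ _ (by
      refine RingHom.ext fun z => ?_
      show q.1.1 ((x.1.1 * y.1.1)⁻¹ z) = q.1.1 (y.1.1⁻¹ (x.1.1⁻¹ z))
      rw [_root_.mul_inv_rev]
      rfl))
    (fun q => hΩ _ _ (by
      refine RingHom.ext fun z => ?_
      show q.1.1 ((1 : (AlgebraicClosure ℚ) ≃ₐ[ℚ] (AlgebraicClosure ℚ))⁻¹ z) = q.1.1 z
      rw [inv_one]
      rfl)) pr
    (fun σ => by
      obtain ⟨φ, hφ⟩ := exists_over σ.1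
      exact ⟨⟨(φ, σ), hφ⟩, rfl⟩)
    (fun q q' => by
      constructor
      · intro h
        have h0 : q.1.2 = q'.1.2 := h
        obtain ⟨g, hg⟩ := exists_gal (F := F) q.1.1 q'.1.1 (fun y => by rw [q.2 y, q'.2 y, h0])
        refine ⟨⟨el p K g, hel g g.2⟩, ⟨g.2, rfl⟩, hΩ _ _ ?_⟩
        refine RingHom.ext fun z => ?_
        exact (hg z).symm
      · rintro ⟨g, ⟨hg, -⟩, rfl⟩
        apply Subtype.ext
        refine RingHom.ext fun y => ?_
        have h1 : (((ac g q).1 y : ℝ) : ℂ) = ((q.1.2.1 y : ℝ) : ℂ) := by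
          rw [← hac g q y, ← q.2 y, mv_apply]
          congr 1
          exact (IntermediateField.mem_fixingSubgroup_iff _ _).1 (F.fixingSubgroup.inv_mem hg) _ y.2
        exact_mod_cast h1.symm)
    D (fun q g hg => hg.1) (fun x q g hg => by
      refine ⟨d.nrm g hg.1 x, fun z => ?_⟩
      show q.1.1 (x.1.1⁻¹ ((x.1.1 * g.1.1 * x.1.1⁻¹) z)) = starRingEnd ℂ (q.1.1 (x.1.1⁻¹ z))
      rw [← hg.2]
      congr 1
      show (x.1.1⁻¹ * (x.1.1 * g.1.1 * x.1.1⁻¹)) z = (g.1.1 * x.1.1⁻¹) z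
      congr 1
      group)
    (fun q => by
      obtain ⟨c, hc⟩ := exists_cc (F := F) q.1.1
      have hcc : c * c = 1 := by
        apply Subtype.ext
        refine AlgEquiv.ext fun z => ?_
        apply q.1.1.injective
        show q.1.1 ((c : (AlgebraicClosure ℚ) ≃ₐ[ℚ] (AlgebraicClosure ℚ))
          ((c : (AlgebraicClosure ℚ) ≃ₐ[ℚ] (AlgebraicClosure ℚ)) z)) = q.1.1 z
        rw [hc, hc, Complex.conj_conj]
      have h2 : (2 : K) ≠ 0 := by
        have : CharZero K := charZero_of_injective_algebraMap (algebraMap ℚ_[p] K).injective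
        exact two_ne_zero
      obtain ⟨f, hf, hf1, hf2⟩ := exists_line h2 (ρ c) (by rw [← map_mul, hcc, map_one])
        (by rw [det_eq_cy hbad hρ c]; exact cy_cc p K _ q.1.1 hc)
      have huniq : ∀ g ∈ D q, rr ρ g = ρ c := by
        intro g hg
        rw [rr_eq ρ g hg.1.1]
        congr 1
        apply Subtype.ext
        refine AlgEquiv.ext fun z => ?_
        apply q.1.1.injective
        show q.1.1 (g.1.1 z) = q.1.1 ((c : (AlgebraicClosure ℚ) ≃ₐ[ℚ] (AlgebraicClosure ℚ)) z)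
        rw [hc, hg.2]
      refine ⟨f, hf, fun g hg => by rw [huniq g hg, hf1], fun f' hf' => hf2 f' ?_⟩
      have h3 := hf' ⟨el p K c, hel c c.2⟩ ⟨⟨c.2, rfl⟩, hc⟩
      rw [rr_eq ρ ⟨el p K c, hel c c.2⟩ c.2] at h3
      exact h3)
    (fun q g hg hq f hf => by
      have h1 : mv g.1.1 q.1.1 = q.1.1 := congrArg (fun r : Ω => r.1.1) hq
      have h2 : g.1.1⁻¹ = 1 := by
        refine AlgEquiv.ext fun z => ?_
        apply q.1.1.injective
        exact RingHom.congr_fun h1 z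
      have h3 : (⟨g.1.1, hg.1⟩ : F.fixingSubgroup) = 1 := by
        apply Subtype.ext
        exact inv_eq_one.1 h2
      rw [rr_eq ρ g hg.1, h3, map_one, Matrix.vecMul_one])
  rw [Fintype.card_coe] at key
  exact key

end

end Pool.Agent.H18.SQ
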