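import Pool.Agent.H18.SQ.Up
import Pool.Agent.H18.SQ.Fin
import Pool.Agent.H18.SQ.Inf

/-!
# An odd number of places with lines forces the representation to extend
-/

set_option autoImplicit false

open NumberField Matrix Polynomial
open Pool.Agent.H44.PC Pool.Agent.H44.TW

namespace Pool.Agent.H18.SQ

noncomputable section

variable {F : IntermediateField ℚ (AlgebraicClosure ℚ)} [NumberField F]
  {p : ℕ} [Fact p.Prime] {K : Type} [NontriviallyNormedField K] [NormedAlgebra ℚ_[p] K]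

/-- the real places of weight `2` modulo `4` -/
def UU (k : (F →+* ℝ) → ℕ) : Finset (F →+* ℝ) := Finset.univ.filter fun σ => k σ % 4 = 2

theorem sign_eq {k : (F →+* ℝ) → ℕ} (hk : ∀ σ, Even (k σ) ∧ 0 < k σ) :
    Complex.I ^ (∑ σ : F →+* ℝ, k σ) = (-1) ^ (UU k).card := by
  classical
  rw [← Finset.prod_pow_eq_pow_sum]
  have h1 : ∀ σ : F →+* ℝ, Complex.I ^ k σ = if k σ % 4 = 2 then (-1 : ℂ) else 1 := by
    intro σ
    obtain ⟨j, hj⟩ := (hk σ).1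
    have h2 : Complex.I ^ k σ = (-1) ^ j := by
      rw [hj, ← two_mul, pow_mul, Complex.I_sq]
    rw [h2]
    split_ifs with h
    · have h3 : Odd j := by
        rw [Nat.odd_iff]
        omega
      exact h3.neg_one_pow
    · have h3 : Even j := by
        rw [Nat.even_iff]
        omega
      exact h3.neg_one_pow
  rw [Finset.prod_congr rfl fun σ _ => h1 σ, Finset.prod_ite, Finset.prod_const_one, mul_one, Finset.prod_const]
  rfl

omit [NumberField F] in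
/-- the set of real places is preserved by the pair `x` -/
def KeepsU (U : Finset (F →+* ℝ)) (x : Pr p K) : Prop :=
  ∀ τ : F ≃ₐ[ℚ] F, (∀ y : F, x.1 y = τ y) → ∀ σ : F →+* ℝ, σ.comp τ.toRingEquiv.toRingHom ∈ U ↔ σ ∈ U

/-- a set of real places which gives the sign at infinity -/
theorem exists_U {k : (F →+* ℝ) → ℕ} (hk : ∀ σ, Even (k σ) ∧ 0 < k σ) (𝒢 : Subgroup (Pr p K))
    (h : 4 ∣ ∑ σ : F →+* ℝ, k σ ∨ ∀ x ∈ 𝒢, KeepsW k x) :
    ∃ U : Finset (F →+* ℝ), Complex.I ^ (∑ σ : F →+* ℝ, k σ) = (-1) ^ U.card ∧ ∀ x ∈ 𝒢, KeepsU U x := by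
  rcases h with ⟨j, hj⟩ | h
  · refine ⟨∅, ?_, fun x _ τ _ σ => by simp⟩
    rw [hj, pow_mul, Complex.I_pow_four, one_pow, Finset.card_empty, pow_zero]
  · refine ⟨UU k, sign_eq hk, fun x hx τ hτ σ => ?_⟩
    have h1 : k (σ.comp τ.toRingEquiv.toRingHom) % 4 = k σ % 4 := h x hx τ hτ σ
    simp only [UU, Finset.mem_filter, Finset.mem_univ, true_and]
    rw [h1]

variable [IsTotallyReal F] {E : Subfield ℂ}

/-- the group contains the Galois group of `F` -/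
private theorem extends_aux {bad : Ideal (𝓞 F)} (hbad : bad ≠ ⊥) {C : Ideal (𝓞 F) → ℂ} {ι : E →+* K}
    {ρ : F.fixingSubgroup →* Matrix (Fin 2) (Fin 2) K} (hirr : Submodule.span K (Set.range ρ) = ⊤)
    (hρ : Att (K := K) ι p (fun v => ¬ bad ≤ v) C ρ) (𝒢 : Subgroup (Pr p K)) (h𝒢 : ∀ x ∈ 𝒢, Fixes ι bad C x)
    (hel : ∀ g ∈ F.fixingSubgroup, el p K g ∈ 𝒢) (U : Finset (F →+* ℝ)) (S : Finset (Ideal (𝓞 F)))
    (hS : ∀ v ∈ S, Line ρ v) (hK : ∀ x ∈ 𝒢, Keeps S x) (hU : ∀ x ∈ 𝒢, KeepsU U x) (hodd : Odd (S.card + U.card)) :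
    Extends ρ 𝒢 := by
  obtain ⟨B, a, d, hBu, hB⟩ := exists_dat hbad hirr hρ 𝒢 h𝒢
  obtain ⟨δ, hδ, hδ2⟩ := exists_delta_fin hel d S hS (fun x hx => by
    obtain ⟨-, τ, hτ, -⟩ := h𝒢 x hx
    exact ⟨τ, hτ, hK x hx τ hτ⟩)
  obtain ⟨ε, hε, hε2⟩ := exists_delta_inf hbad hρ hel d U (fun x hx => by
    obtain ⟨-, τ, hτ, -⟩ := h𝒢 x hx
    exact ⟨τ, hτ, hU x hx τ hτ⟩)
  refine extends_of_delta hbad hρ 𝒢 d hBu hB hodd (fun x => δ x * ε x) (fun x y => ?_) fun g hg b hb => ?_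
  · rw [map_mul, pow_add]
    calc δ x * ε x * (sg x (δ y) * sg x (ε y)) = (δ x * sg x (δ y)) * (ε x * sg x (ε y)) := by ring
      _ = _ := by rw [hδ, hε]; ring
  · rw [hδ2 g hg b hb, hε2 g hg b hb, pow_add]

/-- if the number of the places of `S` and of `U` is odd, then `ρ` extends -/
theorem extends_of_odd_places {bad : Ideal (𝓞 F)} (hbad : bad ≠ ⊥) {C : Ideal (𝓞 F) → ℂ} {ι : E →+* K}
    {ρ : F.fixingSubgroup →* Matrix (Fin 2) (Fin 2) K} (hirr : Submodule.span K (Set.range ρ) = ⊤)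
    (hρ : Att (K := K) ι p (fun v => ¬ bad ≤ v) C ρ) (𝒢 : Subgroup (Pr p K)) (h𝒢 : ∀ x ∈ 𝒢, Fixes ι bad C x)
    (U : Finset (F →+* ℝ)) (S : Finset (Ideal (𝓞 F))) (hS : ∀ v ∈ S, Line ρ v) (hK : ∀ x ∈ 𝒢, Keeps S x)
    (hU : ∀ x ∈ 𝒢, KeepsU U x) (hodd : Odd (S.card + U.card)) : Extends ρ 𝒢 := by
  have h0 : ∀ x ∈ 𝒢, ∃ τ : F ≃ₐ[ℚ] F, ∀ y : F, x.1 y = τ y := fun x hx => by
    obtain ⟨-, τ, hτ, -⟩ := h𝒢 x hx
    exact ⟨τ, hτ⟩
  have h1 : Extends ρ (up F 𝒢 h0) := by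
    refine extends_aux hbad hirr hρ _ (fun x hx => ?_) (fun g hg => el_mem_up hg) U S hS (fun x hx => ?_)
      (fun x hx => ?_) hodd
    · obtain ⟨x', hx', h2, h3⟩ := up_ind hx
      obtain ⟨h4, τ, hτ, h5⟩ := h𝒢 x' hx'
      refine ⟨?_, τ, fun y => (h3 y).trans (hτ y), ?_⟩
      · rw [← h2]
        exact h4
      · intro v hv hv0 hb hp A A' hA hA'
        rw [← h2]
        exact h5 v hv hv0 hb hp A A' hA hA'
    · obtain ⟨x', hx', h2, h3⟩ := up_ind hx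
      intro τ hτ
      exact hK x' hx' τ fun y => (h3 y).symm.trans (hτ y)
    · obtain ⟨x', hx', h2, h3⟩ := up_ind hx
      intro τ hτ
      exact hU x' hx' τ fun y => (h3 y).symm.trans (hτ y)
  obtain ⟨R, hR, hR2⟩ := h1
  exact ⟨R, fun x hx y hy => hR x (le_up hx) y (le_up hy), fun x hx g hg h => hR2 x (le_up hx) g hg h⟩

end

end Pool.Agent.H18.SQ
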