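import Pool.Agent.H18.SQ.Grp

/-!
# Enlarging the group of pairs by the Galois group of `F`
-/

set_option autoImplicit false

open NumberField Matrix Polynomial
open Pool.Agent.H44.PC Pool.Agent.H44.TW

namespace Pool.Agent.H18.SQ

variable {p : ℕ} [Fact p.Prime] {K : Type} [NontriviallyNormedField K] [NormedAlgebra ℚ_[p] K]
  {F : IntermediateField ℚ (AlgebraicClosure ℚ)}

theorem conj_mem {t : (AlgebraicClosure ℚ) ≃ₐ[ℚ] (AlgebraicClosure ℚ)} {τ : F ≃ₐ[ℚ] F} (h : ∀ y : F, t y = τ y)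
    {g : (AlgebraicClosure ℚ) ≃ₐ[ℚ] (AlgebraicClosure ℚ)} (hg : g ∈ F.fixingSubgroup) :
    t * g * t⁻¹ ∈ F.fixingSubgroup ∧ t⁻¹ * g * t ∈ F.fixingSubgroup := by
  have hg0 := (IntermediateField.mem_fixingSubgroup_iff _ _).1 hg
  have hi : ∀ y : F, t⁻¹ (y : AlgebraicClosure ℚ) = (τ.symm y : F) := by
    intro y
    have h1 := h (τ.symm y)
    rw [τ.apply_symm_apply] at h1
    rw [← h1]
    exact t.symm_apply_apply _
  constructor
  · rw [IntermediateField.mem_fixingSubgroup_iff]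
    intro x hx
    show t (g (t⁻¹ x)) = x
    have h1 := hi ⟨x, hx⟩
    have h2 : t⁻¹ x = (τ.symm ⟨x, hx⟩ : F) := h1
    rw [h2, hg0 _ (SetLike.coe_mem _), ← h2]
    exact t.apply_symm_apply x
  · rw [IntermediateField.mem_fixingSubgroup_iff]
    intro x hx
    show t⁻¹ (g (t x)) = x
    have h1 : t x = (τ ⟨x, hx⟩ : F) := h ⟨x, hx⟩
    rw [h1, hg0 _ (SetLike.coe_mem _), ← h1]
    exact t.symm_apply_apply x

/-- the group generated by `𝒢` and the group of `F` -/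
noncomputable def up (F : IntermediateField ℚ (AlgebraicClosure ℚ)) (𝒢 : Subgroup (Pr p K))
    (h : ∀ x ∈ 𝒢, ∃ τ : F ≃ₐ[ℚ] F, ∀ y : F, x.1 y = τ y) : Subgroup (Pr p K) where
  carrier := {y | ∃ g ∈ F.fixingSubgroup, el p K g * y ∈ 𝒢}
  mul_mem' := by
    rintro y y' ⟨g, hg, hy⟩ ⟨g', hg', hy'⟩
    obtain ⟨τ, hτ⟩ := h _ hy
    have h1 := (conj_mem hτ hg').1
    refine ⟨((el p K g * y).1 * g' * (el p K g * y).1⁻¹) * g, F.fixingSubgroup.mul_mem h1 hg, ?_⟩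
    have h2 : el p K (((el p K g * y).1 * g' * (el p K g * y).1⁻¹) * g) * (y * y') =
        (el p K g * y) * (el p K g' * y') := by
      refine Prod.ext ?_ ?_
      · show ((g * y.1) * g' * (g * y.1)⁻¹ * g) * (y.1 * y'.1) = (g * y.1) * (g' * y'.1)
        group
      · show 1 * (y.2 * y'.2) = (1 * y.2) * (1 * y'.2)
        rw [one_mul, one_mul, one_mul]
    rw [h2]
    exact 𝒢.mul_mem hy hy'
  one_mem' := ⟨1, F.fixingSubgroup.one_mem, 𝒢.mul_mem 𝒢.one_mem 𝒢.one_mem⟩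
  inv_mem' := by
    rintro y ⟨g, hg, hy⟩
    obtain ⟨τ, hτ⟩ := h _ hy
    have h1 := (conj_mem hτ (F.fixingSubgroup.inv_mem hg)).2
    refine ⟨(el p K g * y).1⁻¹ * g⁻¹ * (el p K g * y).1, h1, ?_⟩
    have h2 : el p K ((el p K g * y).1⁻¹ * g⁻¹ * (el p K g * y).1) * y⁻¹ = (el p K g * y)⁻¹ := by
      refine Prod.ext ?_ ?_
      · show ((g * y.1)⁻¹ * g⁻¹ * (g * y.1)) * y.1⁻¹ = (g * y.1)⁻¹
        group
      · show 1 * y.2⁻¹ = (1 * y.2)⁻¹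
        rw [one_mul, one_mul]
    rw [h2]
    exact 𝒢.inv_mem hy

variable {𝒢 : Subgroup (Pr p K)} {h : ∀ x ∈ 𝒢, ∃ τ : F ≃ₐ[ℚ] F, ∀ y : F, x.1 y = τ y}

theorem el_mem_up {g : (AlgebraicClosure ℚ) ≃ₐ[ℚ] (AlgebraicClosure ℚ)} (hg : g ∈ F.fixingSubgroup) :
    el p K g ∈ up F 𝒢 h := by
  refine ⟨g⁻¹, F.fixingSubgroup.inv_mem hg, ?_⟩
  have h1 : el p K g⁻¹ * el p K g = 1 := by
    refine Prod.ext ?_ ?_
    · show g⁻¹ * g = 1
      rw [inv_mul_cancel]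
    · show (1 : K ≃ₐ[ℚ_[p]] K) * 1 = 1
      rw [one_mul]
  rw [h1]
  exact 𝒢.one_mem

theorem le_up : 𝒢 ≤ up F 𝒢 h := by
  intro x hx
  refine ⟨1, F.fixingSubgroup.one_mem, ?_⟩
  have h1 : el p K 1 * x = x := one_mul x
  rw [h1]
  exact hx

theorem up_ind {x : Pr p K} (hx : x ∈ up F 𝒢 h) : ∃ x' ∈ 𝒢, x'.2 = x.2 ∧ ∀ y : F, x.1 y = x'.1 y := by
  obtain ⟨g, hg, hx⟩ := hx
  obtain ⟨τ, hτ⟩ := h _ hx
  refine ⟨_, hx, ?_, fun y => ?_⟩
  · show 1 * x.2 = x.2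
    rw [one_mul]
  · have hg0 := (IntermediateField.mem_fixingSubgroup_iff _ _).1 (F.fixingSubgroup.inv_mem hg)
    have h1 : g (x.1 y) = τ y := hτ y
    have h2 : x.1 y = g⁻¹ (g (x.1 y)) := (g.symm_apply_apply _).symm
    rw [h2, h1, hg0 _ (SetLike.coe_mem _), ← h1]
    rfl

end Pool.Agent.H18.SQ
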